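import Mathlib
import Pool.Agent.ROT.Tan

/-!
# MP_739171_an: the ball maximises the Robin eigenvalue, every `α < 0`, a class of convex sets

`Ω` is a bounded domain which is the intersection of the open half spaces
`{x | ⟪x - c, a i⟫ < b i}` with unit normals `a i`; every bounded convex domain has this form.
If every bounding hyperplane is at distance at most `R` from the point `c` (all `b i ≤ R`), then
`λ₁(Ω, α) ≤ λ₁(B_R, α)` for every `α < 0`.  If all the `b i` are equal (the domain is circumscribed
about a ball) this gives the inequality of the question, at equal volume, for every `α < 0`.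
-/

open MeasureTheory Metric Set Filter Topology InnerProductSpace
open scoped Gradient RealInnerProductSpace

namespace Pool.Agent.Results.MP_739171_an.AllAlphaHalfSpaces

open Rob

theorem result (n : ℕ) (hn : 2 ≤ n) (α R : ℝ) (hα : α < 0) (hR : 0 < R)
    (x₀ c : EuclideanSpace ℝ (Fin n)) (ι : Type) (a : ι → EuclideanSpace ℝ (Fin n)) (b : ι → ℝ)
    (ha : ∀ i, ‖a i‖ = 1) (Ω : Set (EuclideanSpace ℝ (Fin n)))
    (hΩ : Ω = {x | ∀ i, ⟪x - c, a i⟫_ℝ < b i}) (hopen : IsOpen Ω)
    (hbdd : Bornology.IsBounded Ω) (hne : Ω.Nonempty)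
    (hb : (∀ i, b i ≤ R) ∨ ((∀ i j, b i = b j) ∧ volume Ω ≤ volume (ball x₀ R))) :
    Convex ℝ Ω ∧ lam1 Ω α ≤ lam1 (ball x₀ R) α := by
  obtain ⟨m, rfl⟩ : ∃ m, n = m + 1 := ⟨n - 1, by omega⟩
  have hm : 1 ≤ m := by omega
  have hE : Module.finrank ℝ (EuclideanSpace ℝ (Fin (m + 1))) = m + 1 := by simp
  have hnt : Nontrivial (EuclideanSpace ℝ (Fin (m + 1))) :=
    Module.nontrivial_of_finrank_pos (R := ℝ) (by omega)
  refine ⟨by rw [hΩ]; exact Tan.convex_half a b c, ?_⟩
  have hbR : ∀ i, b i ≤ R := by
    rcases hb with h | ⟨h1, h2⟩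
    · exact h
    · intro i
      by_contra hcon
      push Not at hcon
      have h3 : ball c (b i) ⊆ Ω := by
        intro x hx
        rw [hΩ]
        intro j
        rw [mem_ball, dist_eq_norm] at hx
        have h4 : ⟪x - c, a j⟫_ℝ ≤ ‖x - c‖ * ‖a j‖ := real_inner_le_norm _ _
        rw [ha j, mul_one] at h4
        rw [← h1 i j]
        linarith
      have h5 : volume (ball c (b i)) ≤ volume (ball x₀ R) := (measure_mono h3).trans h2
      rw [Measure.addHaar_ball_center volume c, Measure.addHaar_ball_center volume x₀] at h5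
      have h6 := ENNReal.toReal_mono measure_ball_lt_top.ne h5
      have h7 := volume_ball_eq (0 : EuclideanSpace ℝ (Fin (m + 1))) (r := b i) (by linarith)
      have h8 := volume_ball_eq (0 : EuclideanSpace ℝ (Fin (m + 1))) (r := R) hR.le
      have hv1 : 0 < volume.real (ball (0 : EuclideanSpace ℝ (Fin (m + 1))) 1) :=
        ENNReal.toReal_pos (measure_ball_pos _ _ one_pos).ne' measure_ball_lt_top.ne
      have h9 : volume.real (ball (0 : EuclideanSpace ℝ (Fin (m + 1))) (b i))
          ≤ volume.real (ball (0 : EuclideanSpace ℝ (Fin (m + 1))) R) := h6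
      rw [h7, h8, hE] at h9
      have h10 := le_of_mul_le_mul_right h9 hv1
      have h11 : R ^ (m + 1) < (b i) ^ (m + 1) := pow_lt_pow_left₀ hcon hR.le (by omega)
      linarith
  exact Tan.lam1_le_half hm hE hα hR ha hbR hopen hbdd hne hΩ x₀

end Pool.Agent.Results.MP_739171_an.AllAlphaHalfSpaces
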