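import Mathlib
import Pool.Agent.RLA.Main

/-!
# MP_739171_an: the ball maximises the Robin eigenvalue among convex sets, outside a compact range

For every dimension `n ≥ 2` there are `A, ε > 0` such that for all `α < 0`, `R > 0` and every bounded
convex domain `Ω` in `ℝⁿ` with `|Ω| = |B_R|`: if `|α| R ≤ 1`, or `|α| R ≥ A`, or `Ω` contains no ball
of radius greater than `ε R`, then `λ₁(Ω, α) ≤ λ₁(B_R, α)`.
-/

open MeasureTheory Metric Set
open scoped RealInnerProductSpace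

namespace Pool.Agent.Results.MP_739171_an.LargeAlpha

open Rob

theorem result (n : ℕ) (hn : 2 ≤ n) :
    ∃ A ε : ℝ, 0 < A ∧ 0 < ε ∧
      ∀ (α R : ℝ) (x₀ : EuclideanSpace ℝ (Fin n)) (Ω : Set (EuclideanSpace ℝ (Fin n))),
        α < 0 → 0 < R → IsOpen Ω → Convex ℝ Ω → Bornology.IsBounded Ω → Ω.Nonempty →
        volume Ω = volume (ball x₀ R) →
        (|α| * R ≤ 1 ∨ A ≤ |α| * R ∨
          ∀ (x : EuclideanSpace ℝ (Fin n)) (r : ℝ), ball x r ⊆ Ω → r ≤ ε * R) →
        lam1 Ω α ≤ lam1 (ball x₀ R) α := by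
  obtain ⟨m, rfl⟩ : ∃ m, n = m + 1 := ⟨n - 1, by omega⟩
  have hE : Module.finrank ℝ (EuclideanSpace ℝ (Fin (m + 1))) = m + 1 := by simp
  exact RLA.main (m := m) (by omega) hE

end Pool.Agent.Results.MP_739171_an.LargeAlpha
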