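import Mathlib
import Pool.Agent.RobP.Types

/-!
# MP_739171_an: the ball maximises the Robin eigenvalue: products, all `α < 0`

`D ⊂ ℝ^N` is, in suitable orthonormal coordinates (the isometry `e`), a product
`Ω₀ × ⋯ × Ω_k` of bounded convex domains `Ω i ⊂ ℝ^{d i}`, `d i ≥ 1`.  Suppose that for each `i`
`d i = 1` and `|Ω i| ≤ |B_{ρ i}|`, or `Ω i` is an intersection of half spaces
whose bounding hyperplanes are at distance at most `ρ i` from a point (or all at the same distance,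
with `|Ω i| ≤ |B_{ρ i}|`), or the inner layers of `Ω i` satisfy the inequality `WebType`, or
simply the eigenvalue of `Ω i` is at most that of the ball of radius `ρ i`.  Then
the eigenvalue of `D` is at most that of the ball of radius `R` as soon as
`∏ (ρ i)^{d i} ≤ R^N`; in particular if `|B_{ρ i}| ≤ |Ω i|` for all `i` and `|D| ≤ |B_R|`.
-/

open MeasureTheory Metric Set Filter Topology InnerProductSpace
open scoped Gradient RealInnerProductSpace

namespace Pool.Agent.Results.MP_739171_an.Products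

open Rob

theorem result (k : ℕ) (d : Fin (k + 1) → ℕ) (Ω : ∀ i, Set (EuclideanSpace ℝ (Fin (d i))))
    (hΩ : ∀ i, BCD (Ω i)) (ρ : Fin (k + 1) → ℝ) (hρ : ∀ i, 0 < ρ i) (α : ℝ) (hα : α < 0)
    (H : ∀ i, GoodAt (d i) (Ω i) (ρ i) α)
    (N : ℕ) (e : EuclideanSpace ℝ (Fin N) ≃ₗᵢ[ℝ] PiLp 2 (fun i => EuclideanSpace ℝ (Fin (d i))))
    (D : Set (EuclideanSpace ℝ (Fin N))) (hD : D = {x | ∀ i, e x i ∈ Ω i})
    (x₀ : EuclideanSpace ℝ (Fin N)) (R : ℝ) (hR : 0 < R)
    (hV : ∏ i, ρ i ^ d i ≤ R ^ N ∨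
      ((∀ i, volume (ball (0 : EuclideanSpace ℝ (Fin (d i))) (ρ i)) ≤ volume (Ω i)) ∧
        volume D ≤ volume (ball x₀ R))) :
    BCD D ∧ lam1 D α ≤ lam1 (ball x₀ R) α := by
  have hd : ∀ i, 1 ≤ d i := by
    intro i
    rcases H i with ⟨h, -⟩ | ⟨h, -⟩ | ⟨h, -⟩ | ⟨h, -⟩ <;> omega
  have hfr : ∀ i, Module.finrank ℝ (EuclideanSpace ℝ (Fin (d i))) = (d i - 1) + 1 := fun i => by
    have := hd i
    rw [finrank_euclideanSpace_fin]
    omega
  have hdi : ∀ i, d i - 1 + 1 = d i := fun i => by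
    have := hd i
    omega
  have hΩ' : ∀ i, Prd.Cvx (Ω i) := fun i => ⟨(hΩ i).1, (hΩ i).2.1, (hΩ i).2.2.1, (hΩ i).2.2.2⟩
  have hQ : ∀ i, lam1 (Ω i) α ≤ lam1 (ball (0 : EuclideanSpace ℝ (Fin (d i))) (ρ i)) α := by
    intro i
    rcases H i with ⟨h, hv⟩ | ⟨h2, ι, c, a, b, ha, hΩe, hb⟩ | ⟨h2, h⟩ | ⟨-, h⟩
    · exact Prd.LAt_dim_one (by rw [finrank_euclideanSpace_fin, h]) (hΩ' i) hα (hρ i) hv 0
    · exact Prd.LAt_half (m := d i - 1) (by omega) (hfr i) (hΩ' i) hα (hρ i) ha hΩe hb 0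
    · refine lam1_le_web' (m := d i - 1) (by omega) (hfr i) hα (hρ i) (hΩ i).1 (hΩ i).2.1
        (hΩ i).2.2.1 (hΩ i).2.2.2 0 fun t ht => ?_
      have h3 := h t ht
      rw [hdi i]
      have h4 : ((d i - 1 : ℕ) : ℝ) + 1 = (d i : ℝ) := by
        rw [← Nat.cast_succ]
        exact_mod_cast hdi i
      rw [h4]
      exact h3
    · exact h
  obtain ⟨M, hM, hc, hq, hw⟩ := Prd.LAt_pi k (fun i => EuclideanSpace ℝ (Fin (d i)))
    (fun i => d i - 1) hfr Ω hΩ' α hα ρ hρ hQ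
  simp only [hdi] at hq hw
  have hfN : N = M + 1 := by
    rw [← hM, ← e.toLinearEquiv.finrank_eq, finrank_euclideanSpace_fin]
  have hMN : Module.finrank ℝ (EuclideanSpace ℝ (Fin N)) = M + 1 := by
    rw [finrank_euclideanSpace_fin, hfN]
  have hDe : D = e ⁻¹' (Prd.piset Ω) := by
    rw [hD]
    rfl
  have hc' : Prd.Cvx D := by
    rw [hDe]
    exact hc.preimage e
  have hprod : ∏ i, ρ i ^ d i ≤ R ^ (M + 1) := by
    rw [← hfN]
    rcases hV with h | ⟨hv, h⟩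
    · exact h
    · rw [hfN]
      have hQ0 : 0 < ∏ i, ρ i ^ d i := Finset.prod_pos fun i _ => pow_pos (hρ i) _
      obtain ⟨R', hR', hR'e⟩ := Prd.exists_root hQ0 M
      have h1 := hw hv R' hR' hR'e.le
      have h2 : volume (ball (0 : EuclideanSpace ℝ (Fin N)) R') ≤ volume (ball x₀ R) := by
        rw [← Prd.ball_zero_preimage e, Prd.volume_preimage]
        refine h1.trans ?_
        rw [← Prd.volume_preimage e, ← hDe]
        exact h
      have h3 := Prd.radius_le hMN hR' hR h2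
      rw [← hR'e]
      exact pow_le_pow_left₀ hR'.le h3 _
  refine ⟨⟨hc'.op, hc'.cv, hc'.bd, hc'.ne⟩, ?_⟩
  have h1 := hq R hR hprod
  rw [← Prd.lam1_preimage e, ← Prd.lam1_preimage e, ← hDe, Prd.ball_zero_preimage] at h1
  exact h1.trans (Prd.lam1_ball_mono hMN hα hR le_rfl)

end Pool.Agent.Results.MP_739171_an.Products
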