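import Mathlib
import Pool.Agent.Helper88.Rob.Final2

/-!
# MP_739171_an: the ball maximises the Robin eigenvalue among convex sets, explicit range

For every dimension `n ≥ 2`, every `α < 0` and every bounded convex domain `Ω` in `ℝⁿ`, a comparison
of `λ₁(Ω, α)` with `λ₁(B_R, α)` under the constraint `|Ω| + c R P(Ω) ≤ |B_R| + c R P(B_R)`, where
`c ≥ 0` has to be large enough in terms of `|α| R` and `n`; for `|α| R` below an explicit number
`c = 0` is allowed, which is the volume constraint of the question.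
-/

open MeasureTheory Metric Set Filter Topology InnerProductSpace
open scoped Gradient RealInnerProductSpace

namespace Pool.Agent.Results.MP_739171_an.SmallAlpha

open Rob

theorem result (n : ℕ) (hn : 2 ≤ n) (α R : ℝ) (hα : α < 0) (hR : 0 < R)
    (x₀ : EuclideanSpace ℝ (Fin n)) :
    ∃ S : ℝ, 0 < S ∧ S * hh (n - 1) S = |α| * R ∧ lam1 (ball x₀ R) α = -(S / R ^ 2) ∧
      ∀ (Ω : Set (EuclideanSpace ℝ (Fin n))) (c : ℝ), IsOpen Ω → Ω.Nonempty →
        Bornology.IsBounded Ω → Convex ℝ Ω → 0 ≤ c →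
        (Real.exp (((n : ℝ) - 1) * Kint (hh (n - 1)) (deriv (hh (n - 1))) S)
            ≤ n * (1 + ((n : ℝ) - 1) * c) ∨
          (2 * (|α| * R) < (n : ℝ) + 2 ∧
            (((n : ℝ) + 2 - |α| * R) / ((n : ℝ) + 2 - 2 * (|α| * R))) ^ (n - 1)
              ≤ n * (1 + ((n : ℝ) - 1) * c))) →
        volume.real Ω + c * R * bdry Ω (fun _ => 1)
          ≤ volume.real (ball x₀ R) + c * R * bdry (ball x₀ R) (fun _ => 1) →
        lam1 Ω α ≤ lam1 (ball x₀ R) α := by
  obtain ⟨m, rfl⟩ : ∃ m, n = m + 1 := ⟨n - 1, by omega⟩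
  have hm : 1 ≤ m := by omega
  have H := rad m hm
  have ha : 0 < -α * R := by nlinarith
  obtain ⟨S, hS, hSα⟩ := H.exists_ge (-α * R) ha
  have hE : Module.finrank ℝ (EuclideanSpace ℝ (Fin (m + 1))) = m + 1 := by simp
  obtain ⟨h1, h2⟩ := comparison hm hE hR hS hSα x₀
  have habs : |α| = -α := abs_of_neg hα
  refine ⟨S, hS, ?_, h1, ?_⟩
  · rw [habs]; simpa using hSα
  · intro Ω c hΩ hne hb hc hc0 hcond hV
    refine h2 Ω c hΩ hne hb hc hc0 ?_ hV
    rw [habs] at hcond
    simp only [Nat.add_sub_cancel, Nat.cast_add, Nat.cast_one, add_sub_cancel_right] at hcond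
    rcases hcond with h3 | ⟨h3, h4⟩
    · exact Or.inl h3
    · refine Or.inr ⟨by linarith, ?_⟩
      have e1 : (m : ℝ) + 3 - -α * R = (m : ℝ) + 1 + 2 - -α * R := by ring
      have e2 : (m : ℝ) + 3 - 2 * (-α * R) = (m : ℝ) + 1 + 2 - 2 * (-α * R) := by ring
      rw [e1, e2]
      exact h4

end Pool.Agent.Results.MP_739171_an.SmallAlpha
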